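import Mathlib
import Pool.Agent.H70.QM.LowR5

set_option autoImplicit false

/-!
# Matrices of logarithms of algebraic numbers close to a matrix of low rank

Let `r (d + l) < d l`. We consider `d × l` matrices `M` whose entries are logarithms, of absolute
value at most `B log H`, of algebraic numbers of degree at most `D` and height at most `H`. If `M`
is within `exp (-(C (log H) ^ (d l / (d l - r (d + l)) + τ)))` of some complex matrix of rank at
most `r`, then there are independent integer vectors `w₁, …, w_a` and `v₁, …, v_b` with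
`a l + b d > d l`, bounded by explicit powers of `log H`, for which all `w_pᵗ M v_q` are integer
multiples of `2 π i`, and there are nonzero integer vectors `w`, `v`, bounded by a power of
`log H`, with `wᵗ M v = 0`. For `d = l = n` the hypothesis on `r` is `2 r < n`, and `a + b > n`.
-/

namespace Pool.Agent.Results.MP_1f047c_nt.EffectiveLowRank

open Polynomial

/-- `x` is a root of a nonzero integer polynomial of degree at most `D` all of whose coefficients
have absolute value at most `H`. -/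
def AlgebraicOfSize (D H : ℕ) (x : ℂ) : Prop :=
  ∃ P : ℤ[X], P ≠ 0 ∧ P.natDegree ≤ D ∧ (∀ i, |P.coeff i| ≤ (H : ℤ)) ∧ aeval x P = 0

/-- the number `wᵗ M v` -/
noncomputable def form {d l : ℕ} (M : Matrix (Fin d) (Fin l) ℂ) (w : Fin d → ℤ) (v : Fin l → ℤ) :
    ℂ := ∑ i, ∑ j, (w i : ℂ) * M i j * v j

/-- the number `d l - r (d + l)` -/
def excess (d l r : ℕ) : ℝ := (d * l : ℝ) - r * (d + l)

/-- **Effective zero blocks of matrices of logarithms close to a matrix of low rank.** -/
theorem result (d l r : ℕ) (hr : r * (d + l) < d * l) (D : ℕ) (B τ : ℝ) (hτ : 0 < τ) :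
    ∃ C : ℝ, 0 < C ∧ ∀ H : ℕ, 3 ≤ H → ∀ M N : Matrix (Fin d) (Fin l) ℂ,
    (∀ i j, AlgebraicOfSize D H (Complex.exp (M i j)) ∧ ‖M i j‖ ≤ B * Real.log H) →
    N.rank ≤ r →
    (∀ i j, ‖M i j - N i j‖ ≤
      Real.exp (-(C * Real.log H ^ (d * l / excess d l r + τ)))) →
    (∃ a b : ℕ, d * l < a * l + b * d ∧ ∃ (w : Fin a → Fin d → ℤ) (v : Fin b → Fin l → ℤ),
      LinearIndependent ℤ w ∧ LinearIndependent ℤ v ∧
      (∀ p i, |(w p i : ℝ)| ≤ C * Real.log H ^ (l * r / excess d l r + τ)) ∧
      (∀ q j, |(v q j : ℝ)| ≤ C * Real.log H ^ (d * r / excess d l r + τ)) ∧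
      (∀ p q, ∃ k : ℤ, form M (w p) (v q) = k * (2 * Real.pi * Complex.I)) ∧
      ((∀ i j, (M i j).im = 0) → ∀ p q, form M (w p) (v q) = 0)) ∧
    ∃ (w : Fin d → ℤ) (v : Fin l → ℤ), w ≠ 0 ∧ v ≠ 0 ∧
      (∀ i, |(w i : ℝ)| ≤ C * Real.log H ^ (2 * (d * l) / excess d l r)) ∧
      (∀ j, |(v j : ℝ)| ≤ C * Real.log H ^ (2 * (d * l) / excess d l r)) ∧
      form M w v = 0 :=
  Pool.Agent.H70.QM.lowMain d l r hr D B τ hτ

end Pool.Agent.Results.MP_1f047c_nt.EffectiveLowRank
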