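import Mathlib
import Pool.Graph.R_seed8.Y787.AS.StrataFin
import Pool.Agent.Helper71.MLog.Chain
import Pool.Agent.Helper71.MLog.Logs

/-!
# Q1 and Q2 for all singular matrices of given rank, on a subspace of finite codimension

For every `r` there is a rational subspace `Λ` of the space of ALL complex logarithms of algebraic
numbers, of codimension at most `r² (r + 2)²`, such that the assertion of Q1 is true for all singular
square matrices (of all sizes) of rank at most `r` with entries in `Λ`. For instance the four
exponentials conjecture is true for all `2 × 2` matrices with entries in a space of codimension at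
most nine, and Q1 is true for all matrices of size at most three with entries in a space of
codimension at most 64. Such a `Λ` can be chosen to contain any given finite dimensional space for
which the assertion is true. The same for `p`-adic logarithms and Q2.

The proof. A violation (a singular matrix without rational zero) of minimal size with entries in a
given space lies on no line of singular matrices with rational direction, as the restriction of the
matrix to the kernels of the direction would be a smaller violation. By the theorem on varieties of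
`Y787.AS` (`det_dim`, which depends on the hyperplane case of the linear subgroup theorem) the
violations `M` of this kind of size `m` with entries in a finite dimensional space `F` lie in an
algebraic set of dimension at most `m² (m² - 1)`, which does not depend on `F`. Let `G ⊂ F` be a
subspace for which the assertion holds. If the kernels of all linear maps `φ` from `F / G` to `ℚ^c`
contained violations, we could take, over the field of germs of rational sequences along an
ultrafilter, a generic `φ` and a minimal violation `M` with `φ(M) = 0`; some combination of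
coordinates of `M` is a regular matrix, and after multiplication of `M` from the left we may assume
that it is a generic matrix, independent of `φ`. As `M ≠ 0` modulo `G`, the coefficients of `φ` satisfy
`c` linear relations over the field generated by the coordinates of `M`, hence
`c + m² ≤ m² (m² - 1)`. So for `c = (n² - 1)²` a good `G` is contained in a good subspace of
codimension at most `c` of `F`, for all violations of size at most `n`. An increasing sequence of
finite dimensional spaces `F` with union the whole space gives an increasing sequence of good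
subspaces, the union of which is good and has codimension at most `c`.
-/

set_option autoImplicit false

namespace Pool.Agent.Results.MP_1f047c_nt.FiniteCodimension

open Module

/-- The assertion of Q1 (of Q2) for the matrices of rank at most `r` with entries in `V`: every singular
square matrix, of any size, of rank at most `r` and with entries in `V` has a rational zero
coefficient. -/
def HasZerosUpToRank {E : Type} [Field E] [CharZero E] (r : ℕ) (V : Submodule ℚ E) : Prop :=
  ∀ (n : ℕ) (M : Matrix (Fin n) (Fin n) E), (∀ i j, M i j ∈ V) → M.det = 0 → M.rank ≤ r →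
    ∃ w v : Fin n → ℚ, w ≠ 0 ∧ v ≠ 0 ∧ ∑ i, ∑ j, (w i : E) * M i j * (v j : E) = 0

/-- The complex logarithms of the nonzero algebraic numbers. -/
noncomputable def complexLogs : Submodule ℚ ℂ :=
  Submodule.span ℚ {z : ℂ | IsAlgebraic ℚ (Complex.exp z)}

/-- `L` is the Iwasawa `p`-adic logarithm on the algebraic closure of `ℚ_p`. -/
def IsIwasawaLog (p : ℕ) [Fact p.Prime] (L : PadicAlgCl p → PadicAlgCl p) : Prop :=
  (∀ x y : PadicAlgCl p, x ≠ 0 → y ≠ 0 → L (x * y) = L x + L y) ∧
  L ((p : ℕ) : PadicAlgCl p) = 0 ∧
  ∀ z : PadicAlgCl p, ‖z‖ < 1 →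
    HasSum (fun n : ℕ => (-1 : PadicAlgCl p) ^ n * z ^ (n + 1) / ((n : PadicAlgCl p) + 1))
      (L (1 + z))

/-- The `p`-adic logarithms of the nonzero algebraic numbers. -/
noncomputable def padicLogs {p : ℕ} [Fact p.Prime] (L : PadicAlgCl p → PadicAlgCl p) :
    Submodule ℚ (PadicAlgCl p) :=
  Submodule.span ℚ {x : PadicAlgCl p | ∃ α : PadicAlgCl p, α ≠ 0 ∧ IsAlgebraic ℚ α ∧ x = L α}

/-- For every `r`, every finite dimensional subspace `V` of `𝓛` for which the assertion holds up to rank
`r` (or of dimension at most two) is contained in such a subspace `Λ` of `𝓛` which has a complement `U`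
in `𝓛` of dimension at most `r² (r + 2)²`. -/
def GoodOnFiniteCodimension {E : Type} [Field E] [CharZero E] (𝓛 : Submodule ℚ E) : Prop :=
  ∀ (r : ℕ) (V : Submodule ℚ E), V ≤ 𝓛 → Module.Finite ℚ V →
    (HasZerosUpToRank r V ∨ finrank ℚ V ≤ 2) →
    ∃ Λ U : Submodule ℚ E, V ≤ Λ ∧ Λ ⊔ U = 𝓛 ∧ Module.Finite ℚ U ∧
      finrank ℚ U ≤ (r * (r + 2)) ^ 2 ∧ HasZerosUpToRank r Λ

/-- the two forms of the property -/
theorem good_iff {E : Type} [Field E] [CharZero E] (r : ℕ) (V : Submodule ℚ E) :
    HasZerosUpToRank r V ↔ Pool.Agent.Helper71.MLog.GoodUpTo (r + 1) V := by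
  constructor
  · intro h m hm M hM hdet
    obtain ⟨w, v, hw, hv, h0⟩ := h m M hM hdet (by
      have := Pool.Agent.Helper71.MLog.rank_lt_of_det_eq_zero M hdet
      omega)
    refine ⟨w, v, hw, hv, ?_⟩
    simpa using h0
  · intro h n M hM hdet hr
    obtain ⟨w, v, hw, hv, h0⟩ := Pool.Agent.Helper71.MLog.rz_of_rank h M hM hdet hr
    refine ⟨w, v, hw, hv, ?_⟩
    simpa using h0

theorem main {E : Type} [Field E] [CharZero E] [Uncountable E] {Lt : Submodule ℚ E}
    (hL : Pool.Agent.W254.PA.Hyp Lt) (𝓛 : Submodule ℚ E) (h𝓛 : 𝓛 ≤ Lt)
    (hcount : (𝓛 : Set E).Countable)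
    (hsmall : ∀ V : Submodule ℚ E, V ≤ 𝓛 → Module.Finite ℚ V → finrank ℚ V ≤ 2 →
      Pool.Agent.W245.SingularHasZero V) : GoodOnFiniteCodimension 𝓛 := by
  intro r V hV𝓛 hVf hV
  have hV' : HasZerosUpToRank r V := by
    rcases hV with h | h
    · exact h
    · intro n M hM hdet _
      have hn : 1 ≤ n := by
        rcases Nat.eq_zero_or_pos n with h0 | h0
        · exfalso
          have : IsEmpty (Fin n) := by rw [h0]; infer_instance
          rw [Matrix.det_isEmpty] at hdet
          exact one_ne_zero hdet
        · exact h0
      exact hsmall V hV𝓛 hVf h n hn M hM hdet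
  obtain ⟨Λ, U, h1, h2, h3, h4, h5⟩ := Pool.Agent.Helper71.MLog.exists_codim hL
    Pool.Agent.Y787.AS.wts_pt (r + 1) 𝓛 h𝓛 hcount V hV𝓛 hVf ((good_iff r V).1 hV')
  refine ⟨Λ, U, h1, h2, h3, h4.trans (le_of_eq ?_), (good_iff r Λ).2 h5⟩
  have : (r + 1) * (r + 1) - 1 = r * (r + 2) := by
    have e : (r + 1) * (r + 1) = r * (r + 2) + 1 := by ring
    rw [e, Nat.add_sub_cancel]
  rw [this]

/-- **Main result.** -/
theorem result :
    ((∀ z, z ∈ complexLogs ↔ IsAlgebraic ℚ (Complex.exp z)) ∧
      GoodOnFiniteCodimension complexLogs) ∧
    (∀ (p : ℕ) [Fact p.Prime] (L : PadicAlgCl p → PadicAlgCl p), IsIwasawaLog p L →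
      (∀ x, x ∈ padicLogs L ↔ ∃ α : PadicAlgCl p, α ≠ 0 ∧ IsAlgebraic ℚ α ∧ x = L α) ∧
      GoodOnFiniteCodimension (padicLogs L)) := by
  refine ⟨⟨Pool.Agent.Helper71.MLog.mem_span_logs, ?_⟩, ?_⟩
  · have := Pool.Agent.Y787.uncountable_complex
    refine main Pool.Agent.Y787.AS.hypQ_complex complexLogs (Submodule.span_mono
      Set.subset_union_right) Pool.Agent.Helper71.MLog.countable_logs ?_
    intro V hV hVf hV2
    exact Pool.Agent.W245.singularHasZero_small V
      (fun x hx => (Pool.Agent.Helper71.MLog.mem_span_logs x).1 (hV hx)) hV2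
  · intro p _ L hL
    have hL' : Pool.Agent.W245.PB.IsIwasawaLog p L := ⟨hL.1, hL.2.1, hL.2.2⟩
    refine ⟨Pool.Agent.Helper71.MLog.mem_span_padicLogs hL', ?_⟩
    refine main (Pool.Agent.Y787.AS.hypQ_padic hL') (padicLogs L) (Submodule.span_mono ?_)
      (Pool.Agent.Helper71.MLog.countable_padicLogs hL') ?_
    · intro x hx
      exact Or.inr hx
    · intro V hV hVf hV2
      exact Pool.Agent.W245.PB.small_of_logs hL' V
        (fun x hx => (Pool.Agent.Helper71.MLog.mem_span_padicLogs hL' x).1 (hV hx)) hV2

end Pool.Agent.Results.MP_1f047c_nt.FiniteCodimension
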