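import Mathlib
import Pool.Graph.R_seed8.Y787.AS.StrataFin
import Pool.Agent.Helper71.MLog.Gsub
import Pool.Agent.Helper71.MLog.Logs

/-!
# Q1 and Q2, all sizes, on almost all subspaces of given dimension

Let `l₁, …, l_R` be logarithms (complex, or `p`-adic) of algebraic numbers, linearly independent over
`ℚ`, and `F` the space spanned by them. If `R ≥ n² - n + 1`, then for all `n`-tuples of elements of `F`
outside a proper algebraic subset of `F ^ n` the assertion of Q1 (Q2) is true for the matrices of ALL
sizes with entries in the space spanned by the tuple. The exceptional set is small: for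
`c = min (2 (R - n), n (R - n² + n))` at most `O (H ^ (nR - c))` of the `(2 H + 1) ^ (nR)` tuples with
integral coordinates of absolute value at most `H` are exceptional. In particular every space of
logarithms of dimension at least `n² - n + 1` contains a space of dimension `n` for which the assertion
is true.

The proof. Let `M = ∑ x_k A_k` be a violation (a singular matrix without rational zero) of minimal size
`m` with entries in the space spanned by `x₁, …, x_n`, with rational matrices `A_k`. Then `m ≤ n`, and `M`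
lies on no line of singular matrices with rational direction. Let `s` of the `A_k` be a basis of the
space spanned by all of them. Then `M = ∑ y_i A_i` (`i` in this set of indices) with
`y_i = x_i + ∑ c_{ik} x_k` (`k` outside). As there is no rational zero, the first columns of the `A_i`
generate `ℚ ^ m`, and their first rows generate `ℚ ^ m`, in particular `m ≤ s`; by multiplication of `M`
with regular rational matrices on both sides we may assume that `m² + m (m - 1)` of the coefficients of
the `A_i` have prescribed values. The other ones are `τ = s m² - 2 m² + m` parameters, and by the theorem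
on families of varieties of `Y787.AS` (`fam_coord`, which depends on the hyperplane case of the linear
subgroup theorem) the tuples `(y_i)` are in a set of dimension at most `τ + s (s - 1)`. So the
exceptional `x` lie in a set of dimension at most `τ + s (s - 1) + s (n - s) + (n - s) R`, and this
number is at most `nR - c` for all `2 ≤ m ≤ s ≤ n`. To compute the transcendence degrees we use germs of
sequences of tuples along an ultrafilter.

(A dimension count without transcendence theory gives a statement of this kind only for `R` of the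
order of `n³`.)
-/

set_option autoImplicit false

namespace Pool.Agent.Results.MP_1f047c_nt.GenericSubspaces

open Module

/-- The assertion of Q1 (of Q2) for the matrices with entries in `V`: every singular square matrix, of
any size, with entries in `V` has a rational zero coefficient. -/
def HasRationalZeros {E : Type} [Field E] [CharZero E] (V : Submodule ℚ E) : Prop :=
  ∀ (N : ℕ) (M : Matrix (Fin N) (Fin N) E), (∀ i j, M i j ∈ V) → M.det = 0 →
    ∃ w v : Fin N → ℚ, w ≠ 0 ∧ v ≠ 0 ∧ ∑ i, ∑ j, (w i : E) * M i j * (v j : E) = 0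

/-- The space spanned by the `n` elements `∑ j, x k j * l j`. -/
def spanOf {E : Type} [Field E] [CharZero E] {n R : ℕ} (l : Fin R → E) (x : Fin n → Fin R → ℚ) :
    Submodule ℚ E :=
  Submodule.span ℚ (Set.range fun k => ∑ j, (x k j : E) * l j)

/-- The complex logarithms of the nonzero algebraic numbers. -/
noncomputable def complexLogs : Submodule ℚ ℂ :=
  Submodule.span ℚ {z : ℂ | IsAlgebraic ℚ (Complex.exp z)}

/-- `L` is the Iwasawa `p`-adic logarithm on the algebraic closure of `ℚ_p`. -/
def IsIwasawaLog (p : ℕ) [Fact p.Prime] (L : PadicAlgCl p → PadicAlgCl p) : Prop :=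
  (∀ x y : PadicAlgCl p, x ≠ 0 → y ≠ 0 → L (x * y) = L x + L y) ∧
  L ((p : ℕ) : PadicAlgCl p) = 0 ∧
  ∀ z : PadicAlgCl p, ‖z‖ < 1 →
    HasSum (fun n : ℕ => (-1 : PadicAlgCl p) ^ n * z ^ (n + 1) / ((n : PadicAlgCl p) + 1))
      (L (1 + z))

/-- The `p`-adic logarithms of the nonzero algebraic numbers. -/
noncomputable def padicLogs {p : ℕ} [Fact p.Prime] (L : PadicAlgCl p → PadicAlgCl p) :
    Submodule ℚ (PadicAlgCl p) :=
  Submodule.span ℚ {x : PadicAlgCl p | ∃ α : PadicAlgCl p, α ≠ 0 ∧ IsAlgebraic ℚ α ∧ x = L α}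

/-- For all linearly independent `l₁, …, l_R` in `𝓛` with `R ≥ n² - n + 1`:
1. there is a polynomial `Ψ ≠ 0` such that the assertion holds for the space spanned by the `n` elements
  `∑ j, x k j * l j` whenever `Ψ(x) ≠ 0`;
2. for `c ≤ 2 (R - n)` and `c ≤ n (R - n² + n)` at most `κ H ^ (n R - c)` of the integral `x` with
  coefficients of absolute value at most `H` span a space for which it does not hold;
3. there is a subspace of dimension `n` of the space spanned by the `l j` for which it holds. -/
def GoodOnGenericSubspaces {E : Type} [Field E] [CharZero E] (𝓛 : Submodule ℚ E) : Prop :=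
  ∀ (n R : ℕ) (l : Fin R → E), (∀ j, l j ∈ 𝓛) → LinearIndependent ℚ l → n ^ 2 < R + n →
    (∃ Ψ : MvPolynomial (Fin n × Fin R) ℚ, Ψ ≠ 0 ∧ ∀ x : Fin n → Fin R → ℚ,
      MvPolynomial.eval (fun q => x q.1 q.2) Ψ ≠ 0 → HasRationalZeros (spanOf l x)) ∧
    (∀ c : ℕ, (c : ℤ) ≤ 2 * ((R : ℤ) - n) → (c : ℤ) ≤ n * ((R : ℤ) - n ^ 2 + n) →
      ∃ κ : ℕ, ∀ H : ℕ, 1 ≤ H →
        Set.ncard {X : Fin n → Fin R → ℤ | (∀ k j, |X k j| ≤ H) ∧
          ¬ HasRationalZeros (spanOf l fun k j => (X k j : ℚ))} ≤ κ * H ^ (n * R - c)) ∧
    ∃ V : Submodule ℚ E, V ≤ Submodule.span ℚ (Set.range l) ∧ finrank ℚ V = n ∧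
      HasRationalZeros V

/-- the two forms of the property -/
theorem good_iff {E : Type} [Field E] [CharZero E] (V : Submodule ℚ E) :
    Pool.Agent.Helper71.MLog.GoodAll V ↔ HasRationalZeros V := by
  constructor
  · intro h n M hM hdet
    obtain ⟨w, v, hw, hv, h0⟩ := h n M hM hdet
    refine ⟨w, v, hw, hv, ?_⟩
    simpa using h0
  · intro h n M hM hdet
    obtain ⟨w, v, hw, hv, h0⟩ := h n M hM hdet
    refine ⟨w, v, hw, hv, ?_⟩
    simpa using h0

theorem main {E : Type} [Field E] [CharZero E] [Uncountable E] {Lt : Submodule ℚ E}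
    (hL : Pool.Agent.W254.PA.Hyp Lt) (𝓛 : Submodule ℚ E) (h𝓛 : 𝓛 ≤ Lt) :
    GoodOnGenericSubspaces 𝓛 := by
  intro n R l hl hli hR
  have hl' : ∀ j, l j ∈ Lt := fun j => h𝓛 (hl j)
  refine ⟨?_, ?_, ?_⟩
  · obtain ⟨Ψ, hΨ, hΨ0⟩ := Pool.Agent.Helper71.MLog.generic_hyp hL
      Pool.Agent.Y787.AS.wts_pt l hl' hli hR
    refine ⟨Ψ, hΨ, fun x hx => ?_⟩
    have h1 := (good_iff _).1 (hΨ0 (fun q => x q.1 q.2) hx)
    have h2 : Pool.Agent.Helper71.MLog.pt l (fun q => x q.1 q.2) =
        fun k => ∑ j, (x k j : E) * l j := by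
      funext k
      rw [Pool.Agent.Helper71.MLog.pt]
      refine Finset.sum_congr rfl fun j _ => ?_
      simp
    rw [h2] at h1
    exact h1
  · intro c hc1 hc2
    obtain ⟨κ, hκ⟩ := Pool.Agent.Helper71.MLog.generic_count hL
      Pool.Agent.Y787.AS.wts_pt l hl' hli hc1 hc2
    refine ⟨κ, fun H hH => le_trans (le_of_eq ?_) (hκ H hH)⟩
    congr 1
    ext X
    have h2 : (Submodule.span ℚ (Set.range fun k => ∑ j, (X k j : E) * l j)) =
        spanOf l fun k j => (X k j : ℚ) := by
      unfold spanOf
      congr 2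
      funext k
      refine Finset.sum_congr rfl fun j _ => ?_
      simp
    simp only [Set.mem_ofPred_eq]
    rw [h2, good_iff]
  · obtain ⟨V, h1, h2, h3⟩ := Pool.Agent.Helper71.MLog.generic_exists hL
      Pool.Agent.Y787.AS.wts_pt l hl' hli hR
    exact ⟨V, h1, h2, (good_iff V).1 h3⟩

/-- **Main result.** -/
theorem result :
    ((∀ z, z ∈ complexLogs ↔ IsAlgebraic ℚ (Complex.exp z)) ∧
      GoodOnGenericSubspaces complexLogs) ∧
    (∀ (p : ℕ) [Fact p.Prime] (L : PadicAlgCl p → PadicAlgCl p), IsIwasawaLog p L →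
      (∀ x, x ∈ padicLogs L ↔ ∃ α : PadicAlgCl p, α ≠ 0 ∧ IsAlgebraic ℚ α ∧ x = L α) ∧
      GoodOnGenericSubspaces (padicLogs L)) := by
  refine ⟨⟨Pool.Agent.Helper71.MLog.mem_span_logs, ?_⟩, ?_⟩
  · have := Pool.Agent.Y787.uncountable_complex
    exact main Pool.Agent.Y787.AS.hypQ_complex complexLogs (Submodule.span_mono
      Set.subset_union_right)
  · intro p _ L hL
    have hL' : Pool.Agent.W245.PB.IsIwasawaLog p L := ⟨hL.1, hL.2.1, hL.2.2⟩
    refine ⟨Pool.Agent.Helper71.MLog.mem_span_padicLogs hL', ?_⟩
    refine main (Pool.Agent.Y787.AS.hypQ_padic hL') (padicLogs L) (Submodule.span_mono ?_)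
    intro x hx
    exact Or.inr hx

end Pool.Agent.Results.MP_1f047c_nt.GenericSubspaces
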