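import Mathlib
import Pool.Agent.Helper71.MLog.Sum
import Pool.Agent.Helper71.MLog.Logs

/-!
# Singular matrices of logarithms: decompositions into spaces for which Q1 (Q2) is true

Let `Λ` be the space of all complex logarithms of algebraic numbers, or any infinite dimensional rational
subspace of it, and `k ≥ 2`. Then `Λ` is the direct sum of `k` infinite dimensional subspaces `P_1, …, P_k`, such
that the assertion Q1 is true, for matrices of all sizes, for the sum of any `k - 1` of them. The first
summand can be chosen to contain a given finite dimensional space for which the assertion is true, for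
instance any two given logarithms. The same for `p`-adic logarithms and Q2.

If this was true for an infinite number of summands, Q1 would follow, as every matrix has its entries in
the sum of finitely many of them.

The proof: let `μ` be the first element, in an enumeration of `Λ`, which is not yet in the sum `S` of the
finite dimensional parts already constructed. By Baker's theorem there are elements `β_1, …, β_(k-1)` of
`Λ` without polynomial relation of bounded degree over `S + ℚ μ`. We add `β_i` to the `i`-th part for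
`i < k`, and `μ - β_1 - … - β_(k-1)` to the last one. Any `k - 1` of these `k` elements are without
polynomial relation of bounded degree over `S`. So a singular matrix with entries in the sum of `k - 1` of
the new parts belongs to an identically singular linear family over the sum of the `k - 1` old parts, and
an element of maximal rank in its linear part reduces the assertion to a smaller matrix over the old parts.
-/

set_option autoImplicit false

namespace Pool.Agent.Results.MP_1f047c_nt.GoodDecompositions

open Module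

/-- Every singular square matrix, of any size, with entries in `V` has a rational zero coefficient: the
assertion of Q1 (of Q2) for the matrices with entries in `V`. -/
def HasZeroCoefficients {E : Type} [Field E] [CharZero E] (V : Submodule ℚ E) : Prop :=
  ∀ n : ℕ, 1 ≤ n → ∀ M : Matrix (Fin n) (Fin n) E, (∀ i j, M i j ∈ V) → M.det = 0 →
    ∃ w v : Fin n → ℚ, w ≠ 0 ∧ v ≠ 0 ∧ ∑ i, ∑ j, (w i : E) * M i j * (v j : E) = 0

/-- The complex logarithms of the nonzero algebraic numbers. -/
noncomputable def complexLogs : Submodule ℚ ℂ := Submodule.span ℚ {z : ℂ | IsAlgebraic ℚ (Complex.exp z)}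

/-- `L` is the Iwasawa `p`-adic logarithm on the algebraic closure of `ℚ_p`. -/
def IsIwasawaLog (p : ℕ) [Fact p.Prime] (L : PadicAlgCl p → PadicAlgCl p) : Prop :=
  (∀ x y : PadicAlgCl p, x ≠ 0 → y ≠ 0 → L (x * y) = L x + L y) ∧
  L ((p : ℕ) : PadicAlgCl p) = 0 ∧
  ∀ z : PadicAlgCl p, ‖z‖ < 1 →
    HasSum (fun n : ℕ => (-1 : PadicAlgCl p) ^ n * z ^ (n + 1) / ((n : PadicAlgCl p) + 1))
      (L (1 + z))

/-- The `p`-adic logarithms of the nonzero algebraic numbers. -/
noncomputable def padicLogs {p : ℕ} [Fact p.Prime] (L : PadicAlgCl p → PadicAlgCl p) :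
    Submodule ℚ (PadicAlgCl p) :=
  Submodule.span ℚ {x : PadicAlgCl p | ∃ α : PadicAlgCl p, α ≠ 0 ∧ IsAlgebraic ℚ α ∧ x = L α}

/-- `Λ` is, for every `k ≥ 2`, the direct sum of `k` infinite dimensional subspaces such that the sum of
any `k - 1` of them has the zero coefficient property; the first one contains a given finite dimensional
subspace `V` with this property (or of dimension at most two). -/
def Decomposable {E : Type} [Field E] [CharZero E] (Λ : Submodule ℚ E) : Prop :=
  ∀ V : Submodule ℚ E, V ≤ Λ → Module.Finite ℚ V → (HasZeroCoefficients V ∨ finrank ℚ V ≤ 2) →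
    ∀ m : ℕ, 1 ≤ m → ∃ P : Fin (m + 1) → Submodule ℚ E, iSupIndep P ∧ ⨆ i, P i = Λ ∧
      V ≤ P 0 ∧ (∀ i, ¬ Module.Finite ℚ (P i)) ∧
      ∀ j : Fin (m + 1), HasZeroCoefficients (⨆ i : {i // i ≠ j}, P i)

/-- **Main result.** -/
theorem result :
    ((∀ z, z ∈ complexLogs ↔ IsAlgebraic ℚ (Complex.exp z)) ∧ ¬ Module.Finite ℚ complexLogs ∧
      ∀ Λ : Submodule ℚ ℂ, Λ ≤ complexLogs → ¬ Module.Finite ℚ Λ → Decomposable Λ) ∧
    (∀ (p : ℕ) [Fact p.Prime] (L : PadicAlgCl p → PadicAlgCl p), IsIwasawaLog p L →
      (∀ x, x ∈ padicLogs L ↔ ∃ α : PadicAlgCl p, α ≠ 0 ∧ IsAlgebraic ℚ α ∧ x = L α) ∧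
      ¬ Module.Finite ℚ (padicLogs L) ∧
      ∀ Λ : Submodule ℚ (PadicAlgCl p), Λ ≤ padicLogs L → ¬ Module.Finite ℚ Λ → Decomposable Λ) := by
  refine ⟨⟨Pool.Agent.Helper71.MLog.mem_span_logs, Pool.Agent.Helper71.MLog.not_finite_logs, ?_⟩, ?_⟩
  · intro Λ hΛ hinf V hVΛ hVf hV m _
    have hac : IsAlgClosed (algebraicClosure ℚ ℂ) := (algebraicClosure.isAlgClosure ℚ ℂ).isAlgClosed
    have hV' : Pool.Agent.W245.SingularHasZero V := by
      rcases hV with h | h
      · exact h
      · exact Pool.Agent.W245.singularHasZero_small V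
          (fun x hx => (Pool.Agent.Helper71.MLog.mem_span_logs x).1 (hΛ (hVΛ hx))) h
    obtain ⟨P, h1, h2, h3, h4, h5⟩ := Pool.Agent.Helper71.MLog.exists_split
      (κ := algebraicClosure ℚ ℂ) Λ (Pool.Agent.Helper71.MLog.countable_logs.mono hΛ) hinf
      (Pool.Agent.Helper71.MLog.bakerProp_logs Λ hΛ) m V hVΛ hVf
      ((Pool.Agent.Helper71.MLog.zeroProp_iff V).2 hV')
    exact ⟨P, h1, h2, h3, h4, fun j => (Pool.Agent.Helper71.MLog.zeroProp_iff _).1 (h5 j)⟩
  · intro p _ L hL
    have hL' : Pool.Agent.W245.PB.IsIwasawaLog p L := ⟨hL.1, hL.2.1, hL.2.2⟩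
    refine ⟨Pool.Agent.Helper71.MLog.mem_span_padicLogs hL',
      Pool.Agent.Helper71.MLog.not_finite_padicLogs hL', ?_⟩
    intro Λ hΛ hinf V hVΛ hVf hV m _
    have hV' : Pool.Agent.W245.SingularHasZero V := by
      rcases hV with h | h
      · exact h
      · exact Pool.Agent.W245.PB.small_of_logs hL' V
          (fun x hx => (Pool.Agent.Helper71.MLog.mem_span_padicLogs hL' x).1 (hΛ (hVΛ hx))) h
    obtain ⟨P, h1, h2, h3, h4, h5⟩ := Pool.Agent.Helper71.MLog.exists_split
      (κ := Pool.Agent.W245.PB.QbarP p) Λ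
      ((Pool.Agent.Helper71.MLog.countable_padicLogs hL').mono hΛ) hinf
      (Pool.Agent.Helper71.MLog.bakerProp_padicLogs hL' Λ hΛ) m V hVΛ hVf
      ((Pool.Agent.Helper71.MLog.zeroProp_iff V).2 hV')
    exact ⟨P, h1, h2, h3, h4, fun j => (Pool.Agent.Helper71.MLog.zeroProp_iff _).1 (h5 j)⟩

end Pool.Agent.Results.MP_1f047c_nt.GoodDecompositions
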